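import Pool.Agent.H723R3.EuclidLocal

/-! # Completions of number fields: residue fields and algebraically independent elements -/

namespace Pool.Agent.W858.SF

open IsDedekindDomain NumberField WithZero Cardinal

universe u

section

variable (L : Type u) [Field L] [NumberField L] (v : HeightOneSpectrum (𝓞 L))

theorem countable_nf : Countable L :=
  Countable.of_equiv _ (Module.finBasis ℚ L).equivFun.toEquiv.symm

theorem uncountable_compl : ¬ Countable (v.adicCompletion L) := by
  intro hc
  obtain ⟨x, hx⟩ := v.valuation_exists_uniformizer L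
  let _ : NontriviallyNormedField (v.adicCompletion L) := NontriviallyNormedField.ofNormNeOne (by
    refine ⟨FinitePlace.embedding v x, ?_, ?_⟩
    · rw [Ne, map_eq_zero]
      rintro rfl
      rw [map_zero] at hx
      exact exp_ne_zero hx.symm
    · intro h
      rw [FinitePlace.norm_embedding', hx] at h
      have h1 : WithZeroMulInt.toNNReal (HeightOneSpectrum.absNorm_ne_zero v) (exp (-1)) = 1 := by
        exact_mod_cast h
      have h2 := (WithZeroMulInt.toNNReal_strictMono
        (HeightOneSpectrum.one_lt_absNorm_nnreal v)).injective (h1.trans (map_one _).symm)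
      rw [← exp_zero, exp_inj] at h2
      omega)
  have h1 := continuum_le_cardinal_of_nontriviallyNormedField (v.adicCompletion L)
  have h2 : #(v.adicCompletion L) ≤ ℵ₀ := Cardinal.mk_le_aleph0
  exact absurd (h1.trans h2) (not_le.2 aleph0_lt_continuum)

variable {L}

/-- the valuation of the completion -/
noncomputable abbrev vv : Valuation (v.adicCompletion L) ℤᵐ⁰ := Valued.v

theorem vv_algebraMap (x : L) : vv v (algebraMap L (v.adicCompletion L) x) = v.valuation L x :=
  Pool.Agent.H723R3.valued_algebraMap v x

theorem finite_residue : Finite (IsLocalRing.ResidueField (vv v).valuationSubring) := by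
  let i : 𝓞 L →+* (vv v).valuationSubring :=
    { toFun := fun r => ⟨algebraMap (𝓞 L) (v.adicCompletion L) r,
        Pool.Agent.H723R3.algebraMap_R_mem v r⟩
      map_one' := Subtype.ext (map_one _)
      map_mul' := fun y z => Subtype.ext (map_mul _ _ _)
      map_zero' := Subtype.ext (map_zero _)
      map_add' := fun y z => Subtype.ext (map_add _ _ _) }
  have hmax : ∀ x : (vv v).valuationSubring,
      x ∈ IsLocalRing.maximalIdeal (vv v).valuationSubring ↔ vv v (x : v.adicCompletion L) < 1 :=
    fun x => Valuation.mem_maximalIdeal_iff (v := vv v)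
  have hker : ∀ r ∈ v.asIdeal, ((IsLocalRing.residue (vv v).valuationSubring).comp i) r = 0 := by
    intro r hr
    rw [RingHom.comp_apply, IsLocalRing.residue_eq_zero_iff, hmax]
    change vv v (algebraMap (𝓞 L) (v.adicCompletion L) r) < 1
    rw [IsScalarTower.algebraMap_apply (𝓞 L) L (v.adicCompletion L), vv_algebraMap]
    exact (HeightOneSpectrum.valuation_lt_one_iff_mem v r).2 hr
  have hfin : Finite (𝓞 L ⧸ v.asIdeal) := Ideal.finiteQuotientOfFreeOfNeBot _ v.ne_bot
  refine Finite.of_surjective (Ideal.Quotient.lift v.asIdeal _ hker) ?_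
  refine Ideal.Quotient.lift_surjective_of_surjective _ _ ?_
  intro y
  obtain ⟨x, rfl⟩ := IsLocalRing.residue_surjective y
  obtain ⟨r, hr⟩ := Pool.Agent.H723R3.exists_approx_int (R := 𝓞 L) v x.2 1
  refine ⟨r, ?_⟩
  rw [RingHom.comp_apply, ← sub_eq_zero, ← map_sub, IsLocalRing.residue_eq_zero_iff, hmax]
  exact hr

/-- every integral element of the completion is congruent to an integer of `L` -/
theorem exists_int_close (b : (vv v).valuationSubring) :
    ∃ r : 𝓞 L, vv v ((b : v.adicCompletion L) -
      algebraMap L (v.adicCompletion L) (algebraMap (𝓞 L) L r)) < 1 := by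
  obtain ⟨r, hr⟩ := Pool.Agent.H723R3.exists_approx_int (R := 𝓞 L) v b.2 1
  refine ⟨r, ?_⟩
  rw [← IsScalarTower.algebraMap_apply, Valuation.map_sub_swap]
  exact hr

theorem mem_max (x : (vv v).valuationSubring) :
    x ∈ IsLocalRing.maximalIdeal (vv v).valuationSubring ↔ vv v (x : v.adicCompletion L) < 1 :=
  Valuation.mem_maximalIdeal_iff (v := vv v)

/-- the residue field of the completion is the one of the prime -/
theorem exists_residue_map : ∃ θ : (𝓞 L ⧸ v.asIdeal) →+*
    IsLocalRing.ResidueField (vv v).valuationSubring, Function.Surjective θ ∧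
    ∀ (r : 𝓞 L) (b : (vv v).valuationSubring), vv v ((b : v.adicCompletion L) -
      algebraMap L (v.adicCompletion L) (algebraMap (𝓞 L) L r)) < 1 →
      IsLocalRing.residue _ b = θ (Ideal.Quotient.mk v.asIdeal r) := by
  let i : 𝓞 L →+* (vv v).valuationSubring :=
    { toFun := fun r => ⟨algebraMap (𝓞 L) (v.adicCompletion L) r,
        Pool.Agent.H723R3.algebraMap_R_mem v r⟩
      map_one' := Subtype.ext (map_one _)
      map_mul' := fun y z => Subtype.ext (map_mul _ _ _)
      map_zero' := Subtype.ext (map_zero _)
      map_add' := fun y z => Subtype.ext (map_add _ _ _) }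
  have hker : ∀ r ∈ v.asIdeal, ((IsLocalRing.residue (vv v).valuationSubring).comp i) r = 0 := by
    intro r hr
    rw [RingHom.comp_apply, IsLocalRing.residue_eq_zero_iff, mem_max]
    change vv v (algebraMap (𝓞 L) (v.adicCompletion L) r) < 1
    rw [IsScalarTower.algebraMap_apply (𝓞 L) L (v.adicCompletion L), vv_algebraMap]
    exact (HeightOneSpectrum.valuation_lt_one_iff_mem v r).2 hr
  refine ⟨Ideal.Quotient.lift v.asIdeal _ hker, ?_, ?_⟩
  · refine Ideal.Quotient.lift_surjective_of_surjective _ _ ?_
    intro y
    obtain ⟨x, rfl⟩ := IsLocalRing.residue_surjective y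
    obtain ⟨r, hr⟩ := Pool.Agent.H723R3.exists_approx_int (R := 𝓞 L) v x.2 1
    refine ⟨r, ?_⟩
    rw [RingHom.comp_apply, ← sub_eq_zero, ← map_sub, IsLocalRing.residue_eq_zero_iff, mem_max]
    exact hr
  · intro r b hb
    rw [Ideal.Quotient.lift_mk, RingHom.comp_apply, ← sub_eq_zero, ← map_sub,
      IsLocalRing.residue_eq_zero_iff, mem_max]
    change vv v ((b : v.adicCompletion L) - algebraMap (𝓞 L) (v.adicCompletion L) r) < 1
    rw [IsScalarTower.algebraMap_apply (𝓞 L) L (v.adicCompletion L)]
    exact hb

/-- an algebraically independent family -/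
theorem exists_algInd (m : ℕ) : ∃ x : Fin m → v.adicCompletion L, AlgebraicIndependent L x := by
  obtain ⟨s, hs⟩ := exists_isTranscendenceBasis L (v.adicCompletion L)
  have hinf : s.Infinite := by
    intro hfin
    apply uncountable_compl L v
    have hcL : Countable L := countable_nf L
    have hcs : Countable s := hfin.countable.to_subtype
    have hmv : Countable (MvPolynomial s L) := by
      rw [← Cardinal.mk_le_aleph0_iff]
      refine (MvPolynomial.cardinalMk_le_max (R := L) (σ := s)).trans ?_
      simp only [max_le_iff, le_refl, and_true]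
      exact ⟨Cardinal.mk_le_aleph0, Cardinal.mk_le_aleph0⟩
    have halg := hs.isAlgebraic
    have hcad : Countable (Algebra.adjoin L (Set.range (Subtype.val : s → v.adicCompletion L))) := by
      rw [Algebra.adjoin_range_eq_range_aeval]
      exact (MvPolynomial.aeval (R := L)
        (Subtype.val : s → v.adicCompletion L)).rangeRestrict_surjective.countable
    have h1 := Algebraic.countable
      (Algebra.adjoin L (Set.range (Subtype.val : s → v.adicCompletion L))) (v.adicCompletion L)
    have h2 : {x : v.adicCompletion L | IsAlgebraic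
        (Algebra.adjoin L (Set.range (Subtype.val : s → v.adicCompletion L))) x} = Set.univ :=
      Set.eq_univ_of_forall fun x => halg.isAlgebraic x
    rw [h2] at h1
    exact Set.countable_univ_iff.1 h1
  let e : Fin m ↪ s := (Fin.valEmbedding).trans (hinf.natEmbedding s)
  exact ⟨fun i => (e i : v.adicCompletion L), hs.1.comp e e.injective⟩

/-- algebraically independent elements near given elements -/
theorem exists_algInd_near {m : ℕ} (b : Fin m → L) (ρ : L) (hρ : ρ ≠ 0) :
    ∃ τ : Fin m → v.adicCompletion L, AlgebraicIndependent L τ ∧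
      ∀ i, vv v (τ i - algebraMap L (v.adicCompletion L) (b i)) ≤ v.valuation L ρ := by
  obtain ⟨x, hx⟩ := exists_algInd v m
  obtain ⟨π, hπ⟩ := v.valuation_exists_uniformizer L
  have hπ0 : π ≠ 0 := by
    rintro rfl
    rw [map_zero] at hπ
    exact exp_ne_zero hπ.symm
  have hn : ∀ i, ∃ n : ℕ, vv v (algebraMap L (v.adicCompletion L) (π ^ n) * x i) ≤ 1 := by
    intro i
    refine ⟨(log (vv v (x i))).natAbs, ?_⟩
    rw [map_mul, vv_algebraMap, map_pow, hπ]
    by_cases h0 : vv v (x i) = 0
    · rw [h0, mul_zero]
      exact zero_le_one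
    · rw [← exp_log h0, ← exp_nsmul, ← exp_add, ← exp_zero, exp_le_exp, nsmul_eq_mul, log_exp]
      omega
  choose n hn using hn
  refine ⟨fun i => algebraMap L (v.adicCompletion L) (b i) +
    algebraMap L (v.adicCompletion L) (ρ * π ^ n i) * x i, ?_, ?_⟩
  · have hsub : Function.Injective (MvPolynomial.aeval (R := L) (σ := Fin m) fun i =>
        (MvPolynomial.C (b i) + MvPolynomial.C (ρ * π ^ n i) * MvPolynomial.X i :
          MvPolynomial (Fin m) L)) := by
      refine Function.LeftInverse.injective (g := MvPolynomial.aeval (R := L) (σ := Fin m) fun i =>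
        (MvPolynomial.C ((ρ * π ^ n i)⁻¹) * (MvPolynomial.X i - MvPolynomial.C (b i)) :
          MvPolynomial (Fin m) L)) ?_
      intro p
      have : (MvPolynomial.aeval (R := L) (σ := Fin m) fun i =>
        (MvPolynomial.C ((ρ * π ^ n i)⁻¹) * (MvPolynomial.X i - MvPolynomial.C (b i)) :
          MvPolynomial (Fin m) L)).comp (MvPolynomial.aeval (R := L) (σ := Fin m) fun i =>
        (MvPolynomial.C (b i) + MvPolynomial.C (ρ * π ^ n i) * MvPolynomial.X i :
          MvPolynomial (Fin m) L)) = AlgHom.id L _ := by
        apply MvPolynomial.algHom_ext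
        intro i
        have hne : ρ * π ^ n i ≠ 0 := mul_ne_zero hρ (pow_ne_zero _ hπ0)
        simp only [AlgHom.comp_apply, MvPolynomial.aeval_X, map_add, map_mul, MvPolynomial.algHom_C,
          AlgHom.id_apply, MvPolynomial.algebraMap_eq]
        have hC : (MvPolynomial.C (ρ * π ^ n i) * MvPolynomial.C (ρ * π ^ n i)⁻¹ :
            MvPolynomial (Fin m) L) = 1 := by
          rw [← map_mul, mul_inv_cancel₀ hne, map_one]
        rw [map_mul] at hC
        rw [← mul_assoc, hC, one_mul]
        ring
      exact AlgHom.congr_fun this p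
    have h1 : Function.Injective (MvPolynomial.aeval (R := L) x) := hx
    have h2 : (MvPolynomial.aeval (R := L) fun i => algebraMap L (v.adicCompletion L) (b i) +
        algebraMap L (v.adicCompletion L) (ρ * π ^ n i) * x i) =
        (MvPolynomial.aeval (R := L) x).comp (MvPolynomial.aeval (R := L) (σ := Fin m) fun i =>
        (MvPolynomial.C (b i) + MvPolynomial.C (ρ * π ^ n i) * MvPolynomial.X i :
          MvPolynomial (Fin m) L)) := by
      apply MvPolynomial.algHom_ext
      intro i
      simp only [AlgHom.comp_apply, MvPolynomial.aeval_X, map_add, map_mul, MvPolynomial.algHom_C]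
    change Function.Injective _
    rw [h2]
    exact h1.comp hsub
  · intro i
    rw [add_sub_cancel_left, map_mul (algebraMap L (v.adicCompletion L)) ρ, mul_assoc,
      Valuation.map_mul, vv_algebraMap]
    exact mul_le_of_le_one_right' (hn i)

end

end Pool.Agent.W858.SF
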