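import Pool.Agent.W858.SF.Key

/-! # Twists over a field embedded into a discretely valued field with finite residue field -/

namespace Pool.Agent.W858.SF

open Polynomial WithZero Pool.Agent.W623.SecC

universe u v w x

theorem fine_of_val {k : Type u} {E : Type x} [Field k] [CharZero k] [Field E]
    (V : Valuation E ℤᵐ⁰) [Finite (IsLocalRing.ResidueField V.valuationSubring)] (ψ : k →+* E)
    (h2 : V (2 : E) = 1) (g : k[X]) (gB : V.valuationSubring[X])
    (hg : gB.map (algebraMap V.valuationSubring E) = g.map ψ) (hlc : IsUnit gB.leadingCoeff)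
    (hs : (gB.map (IsLocalRing.residue V.valuationSubring)).Separable) (hev : Even g.natDegree)
    (h4 : 4 ≤ g.natDegree)
    (hroot : ∀ b : V.valuationSubring, gB.eval b ∉ IsLocalRing.maximalIdeal V.valuationSubring)
    (a : k) (m : ℤ) (hm : Odd m) (ha : V (ψ a) = exp m) : Fine.{u, v, w} a g := by
  classical
  obtain ⟨hdvr, ϖ, t, n, hϖ, ht, hn, hat⟩ := exists_unif (V.comap ψ) a m hm ha
  let i : (V.comap ψ).valuationSubring →+* V.valuationSubring :=
    { toFun := fun y => ⟨ψ y, y.2⟩
      map_one' := Subtype.ext (map_one ψ)
      map_mul' := fun y z => Subtype.ext (map_mul ψ _ _)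
      map_zero' := Subtype.ext (map_zero ψ)
      map_add' := fun y z => Subtype.ext (map_add ψ _ _) }
  have hcoe : ∀ y, ((i y : V.valuationSubring) : E) = ψ (y : k) := fun _ => rfl
  have hinj : Function.Injective i := by
    intro y z hyz
    apply Subtype.ext
    apply ψ.injective
    have := congrArg Subtype.val hyz
    exact this
  have hloc : IsLocalHom i := by
    refine ⟨fun y hy => ?_⟩
    have h1 := (Valuation.Integers.isUnit_iff_valuation_eq_one
      (Valuation.valuationSubring.integers V)).1 hy
    exact (Valuation.Integers.isUnit_iff_valuation_eq_one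
      (Valuation.valuationSubring.integers (V.comap ψ))).2 h1
  have hfin : Finite (IsLocalRing.ResidueField (V.comap ψ).valuationSubring) :=
    Finite.of_injective _ (IsLocalRing.ResidueField.map i).injective
  obtain ⟨f, hf⟩ : ∃ f : (V.comap ψ).valuationSubring[X],
      f.map (algebraMap (V.comap ψ).valuationSubring k) = g := by
    have h1 : g ∈ Polynomial.lifts (algebraMap (V.comap ψ).valuationSubring k) := by
      rw [Polynomial.lifts_iff_coeff_lifts]
      intro j
      have h3 : ψ (g.coeff j) = (gB.coeff j : E) := by
        have := congrArg (fun q => q.coeff j) hg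
        simp only [coeff_map] at this
        exact this.symm
      exact ⟨⟨g.coeff j, by
        change V (ψ (g.coeff j)) ≤ 1
        rw [h3]
        exact (gB.coeff j).2⟩, rfl⟩
    obtain ⟨f, hf⟩ := (Polynomial.mem_lifts _).1 h1
    exact ⟨f, hf⟩
  have hfB : f.map i = gB := by
    apply Polynomial.map_injective (algebraMap V.valuationSubring E) Subtype.val_injective
    rw [hg, ← hf, Polynomial.map_map, Polynomial.map_map]
    rfl
  have hdeg : f.natDegree = g.natDegree := by
    rw [← hf]
    exact (natDegree_map_eq_of_injective Subtype.val_injective f).symm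
  have hlcf : IsUnit f.leadingCoeff := by
    have h1 : i f.leadingCoeff = gB.leadingCoeff := by
      rw [← hfB]
      exact (leadingCoeff_map_of_injective hinj f).symm
    rw [← h1] at hlc
    exact hloc.map_nonunit _ hlc
  have hsf : (f.map (IsLocalRing.residue (V.comap ψ).valuationSubring)).Separable := by
    rw [← Polynomial.separable_map (IsLocalRing.ResidueField.map i), Polynomial.map_map,
      IsLocalRing.ResidueField.map_comp_residue, ← Polynomial.map_map, hfB]
    exact hs
  have hrf : ∀ b, f.eval b ∉ IsLocalRing.maximalIdeal (V.comap ψ).valuationSubring := by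
    intro b hb
    apply hroot (i b)
    rw [← hfB, eval_map, eval₂_at_apply]
    intro hun
    exact hb (hloc.map_nonunit _ hun)
  have h2A : IsUnit (2 : (V.comap ψ).valuationSubring) := by
    refine (Valuation.Integers.isUnit_iff_valuation_eq_one
      (Valuation.valuationSubring.integers (V.comap ψ))).2 ?_
    change V (ψ 2) = 1
    rw [map_ofNat, h2]
  have hak : a = algebraMap (V.comap ψ).valuationSubring k t *
      algebraMap (V.comap ψ).valuationSubring k ϖ ^ n := hat
  refine ⟨?_, ?_, ?_⟩
  · intro F Ω _ _ _ _ _ _ _ _ U hU x y hxy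
    refine local_no_section h2A f hlcf hsf (by rwa [hdeg]) (by rwa [hdeg]) hrf ϖ hϖ a t ht n hn hak
      U hU x y ?_
    rw [hxy, hf]
  · intro x y
    have := no_affine_point ϖ hϖ f hlcf (by rwa [hdeg]) hrf a t ht n hn hak x y
    rwa [hf] at this
  · intro r
    have := no_infinite_point ϖ hϖ f hlcf a t ht n hn hak r
    rwa [← leadingCoeff_map_of_injective (f := algebraMap (V.comap ψ).valuationSubring k)
      Subtype.val_injective f, hf] at this

end Pool.Agent.W858.SF
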