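import Pool.Agent.W623.SecC.Glob

/-! # The local theorem for a field with an embedding into a discretely valued field -/

namespace Pool.Agent.W858.SF

open Polynomial WithZero Pool.Agent.W623.SecC

universe u v w

/-- A valuation on a field with values in `ℤ`: if some element has odd value, then the valuation
ring is a discrete valuation ring and the element is a unit times an odd power of a uniformiser. -/
theorem exists_unif {k : Type u} [Field k] (w : Valuation k ℤᵐ⁰) (a : k) (m : ℤ) (hm : Odd m)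
    (ha : w a = exp m) :
    IsDiscreteValuationRing w.valuationSubring ∧
    ∃ (ϖ t : w.valuationSubring) (n : ℤ), Irreducible ϖ ∧ IsUnit t ∧ Odd n ∧
      a = (t : k) * (ϖ : k) ^ n := by
  classical
  have hw0 : ∀ x : k, x ≠ 0 → w x ≠ 0 := fun x hx => (Valuation.ne_zero_iff w).2 hx
  have hexp : ∀ x : k, x ≠ 0 → w x = exp (log (w x)) := fun x hx => (exp_log (hw0 x hx)).symm
  have hunit : ∀ x : w.valuationSubring, IsUnit x ↔ w (x : k) = 1 := by
    intro x
    exact Valuation.Integers.isUnit_iff_valuation_eq_one (Valuation.valuationSubring.integers w)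
  have ha0 : a ≠ 0 := by
    rintro rfl
    rw [map_zero] at ha
    exact exp_ne_zero ha.symm
  -- the minimal positive order
  have hex : ∃ n : ℕ, 0 < n ∧ ∃ x : k, w x = exp (-(n : ℤ)) := by
    obtain ⟨j, hj⟩ := hm
    have hm0 : m ≠ 0 := by omega
    rcases lt_or_gt_of_ne hm0 with h | h
    · refine ⟨m.natAbs, by omega, a, ?_⟩
      rw [ha]
      congr 1
      omega
    · refine ⟨m.natAbs, by omega, a⁻¹, ?_⟩
      rw [map_inv₀, ha, ← exp_neg]
      congr 1
      omega
  obtain ⟨hn0, ϖ, hϖ⟩ := Nat.find_spec hex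
  set n0 := Nat.find hex with hn0def
  have hmin : ∀ n : ℕ, 0 < n → n < n0 → ∀ x : k, w x ≠ exp (-(n : ℤ)) := by
    intro n hn hlt x hx
    exact Nat.find_min hex hlt ⟨hn, x, hx⟩
  have hϖ0 : ϖ ≠ 0 := by
    rintro rfl
    rw [map_zero] at hϖ
    exact exp_ne_zero hϖ.symm
  -- every order is a multiple of the minimal one
  have hdecomp : ∀ x : k, x ≠ 0 → ∃ q : ℤ, w x = exp (-(q * n0)) ∧ w (x * ϖ ^ (-q)) = 1 := by
    intro x hx
    obtain ⟨N, hN⟩ : ∃ N : ℤ, w x = exp (-N) := ⟨-log (w x), by rw [neg_neg]; exact hexp x hx⟩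
    have hn0' : (0 : ℤ) < n0 := by exact_mod_cast hn0
    have h1 : w (x * ϖ ^ (-(N / n0))) = exp (-(N % n0)) := by
      rw [map_mul, map_zpow₀, hN, hϖ, ← exp_zsmul, ← exp_add]
      congr 1
      rw [smul_eq_mul]
      have := Int.mul_ediv_add_emod N n0
      linarith
    have h2 : N % n0 = 0 := by
      by_contra hne
      have h3 : 0 ≤ N % n0 := Int.emod_nonneg _ hn0'.ne'
      have h4 : N % n0 < n0 := Int.emod_lt_of_pos _ hn0'
      refine hmin (N % n0).natAbs (by omega) (by omega) (x * ϖ ^ (-(N / n0))) ?_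
      rw [h1]
      congr 1
      omega
    refine ⟨N / n0, ?_, ?_⟩
    · rw [hN]
      congr 1
      have := Int.mul_ediv_add_emod N n0
      rw [h2] at this
      linarith
    · rw [h1, h2, neg_zero, exp_zero]
  have hϖA : ϖ ∈ w.valuationSubring := by
    rw [Valuation.mem_valuationSubring_iff, hϖ, ← exp_zero, exp_le_exp]
    omega
  let P : w.valuationSubring := ⟨ϖ, hϖA⟩
  have hPirr : Irreducible P := by
    refine ⟨?_, ?_⟩
    · rw [hunit]
      change ¬ w ϖ = 1
      rw [hϖ, ← exp_zero, exp_inj]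
      omega
    · intro x y hxy
      have hxyk : ϖ = (x : k) * (y : k) := congrArg Subtype.val hxy
      have hx0 : (x : k) ≠ 0 := by
        intro h
        rw [h, zero_mul] at hxyk
        exact hϖ0 hxyk
      have hy0 : (y : k) ≠ 0 := by
        intro h
        rw [h, mul_zero] at hxyk
        exact hϖ0 hxyk
      obtain ⟨q, hq, -⟩ := hdecomp _ hx0
      obtain ⟨r, hr, -⟩ := hdecomp _ hy0
      have hn0' : (0 : ℤ) < n0 := by exact_mod_cast hn0
      have hqx : 0 ≤ q := by
        have h1 := (Valuation.mem_valuationSubring_iff _ _).1 x.2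
        rw [hq, ← exp_zero, exp_le_exp] at h1
        by_contra hneg
        push Not at hneg
        nlinarith
      have hry : 0 ≤ r := by
        have h1 := (Valuation.mem_valuationSubring_iff _ _).1 y.2
        rw [hr, ← exp_zero, exp_le_exp] at h1
        by_contra hneg
        push Not at hneg
        nlinarith
      have hsum : q + r = 1 := by
        have h1 : w ϖ = w (x : k) * w (y : k) := by rw [hxyk, map_mul]
        rw [hϖ, hq, hr, ← exp_add, exp_inj] at h1
        have h2 : (q + r - 1) * (n0 : ℤ) = 0 := by linarith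
        rcases mul_eq_zero.1 h2 with h3 | h3
        · omega
        · omega
      rcases (by omega : q = 0 ∨ r = 0) with h | h
      · left
        rw [hunit, hq, h, zero_mul, neg_zero, exp_zero]
      · right
        rw [hunit, hr, h, zero_mul, neg_zero, exp_zero]
  refine ⟨IsDiscreteValuationRing.ofHasUnitMulPowIrreducibleFactorization ⟨P, hPirr, ?_⟩, ?_⟩
  · intro x hx
    have hx0 : (x : k) ≠ 0 := by
      intro h
      exact hx (Subtype.ext h)
    obtain ⟨q, hq, hq1⟩ := hdecomp _ hx0
    have hn0' : (0 : ℤ) < n0 := by exact_mod_cast hn0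
    have hqx : 0 ≤ q := by
      have h1 := (Valuation.mem_valuationSubring_iff _ _).1 x.2
      rw [hq, ← exp_zero, exp_le_exp] at h1
      by_contra hneg
      push Not at hneg
      nlinarith
    obtain ⟨n, rfl⟩ := Int.eq_ofNat_of_zero_le hqx
    let U : w.valuationSubring := ⟨(x : k) * ϖ ^ (-(n : ℤ)), le_of_eq hq1⟩
    have hU : IsUnit U := (hunit _).2 hq1
    refine ⟨n, hU.unit, ?_⟩
    apply Subtype.ext
    change ϖ ^ n * ((x : k) * ϖ ^ (-(n : ℤ))) = x
    rw [zpow_neg, zpow_natCast]
    field_simp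
  · obtain ⟨q, hq, hq1⟩ := hdecomp _ ha0
    let U : w.valuationSubring := ⟨a * ϖ ^ (-q), le_of_eq hq1⟩
    refine ⟨P, U, q, hPirr, (hunit _).2 hq1, ?_, ?_⟩
    · rw [ha, exp_inj] at hq
      rw [hq] at hm
      have h1 : Odd (q * (n0 : ℤ)) := by
        rcases hm with ⟨j, hj⟩
        exact ⟨-j - 1, by linarith⟩
      exact (Int.odd_mul.1 h1).1
    · change a = a * ϖ ^ (-q) * ϖ ^ q
      rw [zpow_neg, mul_assoc, inv_mul_cancel₀ (zpow_ne_zero _ hϖ0), mul_one]

end Pool.Agent.W858.SF
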