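import Pool.Agent.W858.SF.Comp
import Pool.Agent.W858.SF.Emb

/-! # Specialisations near a point -/

namespace Pool.Agent.W858.SF

open IsDedekindDomain NumberField WithZero Polynomial Pool.Agent.W623.SecC

universe u v w

/-- values of a polynomial with integral coefficients at points that are close -/
theorem near_eval {E : Type*} [Field E] (V : Valuation E ℤᵐ⁰) {σ : Type*} (P : MvPolynomial σ E)
    (hP : ∀ s, V (P.coeff s) ≤ 1) (x y : σ → E) (hx : ∀ i, V (x i) ≤ 1) (hy : ∀ i, V (y i) ≤ 1)
    (γ : ℤᵐ⁰) (hxy : ∀ i, V (x i - y i) ≤ γ) :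
    V (MvPolynomial.eval x P - MvPolynomial.eval y P) ≤ γ ∧ V (MvPolynomial.eval x P) ≤ 1 := by
  classical
  have hmono : ∀ s : σ →₀ ℕ, V (s.prod fun i n => x i ^ n) ≤ 1 ∧
      V (s.prod fun i n => y i ^ n) ≤ 1 ∧
      V ((s.prod fun i n => x i ^ n) - s.prod fun i n => y i ^ n) ≤ γ := by
    intro s
    induction s using Finsupp.induction_linear with
    | zero => simp
    | add s t hs ht =>
      rw [Finsupp.prod_add_index' (fun _ => pow_zero _) (fun _ _ _ => pow_add _ _ _),
        Finsupp.prod_add_index' (fun _ => pow_zero _) (fun _ _ _ => pow_add _ _ _)]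
      refine ⟨?_, ?_, ?_⟩
      · rw [map_mul]
        exact mul_le_one' hs.1 ht.1
      · rw [map_mul]
        exact mul_le_one' hs.2.1 ht.2.1
      · have h1 : (s.prod fun i n => x i ^ n) * (t.prod fun i n => x i ^ n) -
            (s.prod fun i n => y i ^ n) * (t.prod fun i n => y i ^ n) =
            ((s.prod fun i n => x i ^ n) - s.prod fun i n => y i ^ n) *
              (t.prod fun i n => x i ^ n) +
            (s.prod fun i n => y i ^ n) * ((t.prod fun i n => x i ^ n) -
              t.prod fun i n => y i ^ n) := by ring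
        rw [h1]
        refine (Valuation.map_add _ _ _).trans (max_le ?_ ?_)
        · rw [map_mul]
          exact mul_le_of_le_of_le_one hs.2.2 ht.1
        · rw [map_mul, mul_comm]
          exact mul_le_of_le_of_le_one ht.2.2 hs.2.1
    | single i n =>
      rw [Finsupp.prod_single_index (h := fun i n => x i ^ n) (pow_zero _),
        Finsupp.prod_single_index (h := fun i n => y i ^ n) (pow_zero _)]
      induction n with
      | zero => simp
      | succ n ih =>
        refine ⟨?_, ?_, ?_⟩
        · rw [map_pow]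
          exact pow_le_one' (hx i) _
        · rw [map_pow]
          exact pow_le_one' (hy i) _
        · have h1 : x i ^ (n + 1) - y i ^ (n + 1) = (x i ^ n - y i ^ n) * x i +
              y i ^ n * (x i - y i) := by ring
          rw [h1]
          refine (Valuation.map_add _ _ _).trans (max_le ?_ ?_)
          · rw [map_mul]
            exact mul_le_of_le_of_le_one ih.2.2 (hx i)
          · rw [map_mul, mul_comm]
            exact mul_le_of_le_of_le_one (hxy i) ih.2.1
  constructor
  · rw [MvPolynomial.eval_eq, MvPolynomial.eval_eq, ← Finset.sum_sub_distrib]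
    refine Valuation.map_sum_le _ fun s _ => ?_
    rw [← mul_sub, map_mul, mul_comm]
    exact mul_le_of_le_of_le_one (hmono s).2.2 (hP s)
  · rw [MvPolynomial.eval_eq]
    refine Valuation.map_sum_le _ fun s _ => ?_
    rw [map_mul]
    exact mul_le_one' (hP s) (hmono s).1

section

variable {K L : Type u} [Field K] [Field L] [NumberField L] [Algebra K L] {m : ℕ}
  (v : HeightOneSpectrum (𝓞 L))

/-- evaluation at a point of the completion -/
noncomputable def sp (τ : Fin m → v.adicCompletion L) :
    MvPolynomial (Fin m) K →+* v.adicCompletion L :=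
  (MvPolynomial.eval τ).comp
    (MvPolynomial.map ((algebraMap L (v.adicCompletion L)).comp (algebraMap K L)))

/-- evaluation at a point of `L` -/
noncomputable def spL (c : Fin m → L) : MvPolynomial (Fin m) K →+* L :=
  (MvPolynomial.eval c).comp (MvPolynomial.map (algebraMap K L))

theorem sp_injective (τ : Fin m → v.adicCompletion L) (hτ : AlgebraicIndependent L τ) :
    Function.Injective (sp (K := K) v τ) := by
  have h1 : (sp (K := K) v τ) = (MvPolynomial.aeval (R := L) τ).toRingHom.comp
      (MvPolynomial.map (algebraMap K L)) := by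
    apply MvPolynomial.ringHom_ext
    · intro r
      simp [sp]
    · intro i
      simp [sp]
  rw [h1]
  have h2 : Function.Injective (MvPolynomial.aeval (R := L) τ) := hτ
  exact h2.comp (MvPolynomial.map_injective _ (algebraMap K L).injective)

theorem sp_coe (c : Fin m → L) (p : MvPolynomial (Fin m) K) :
    sp v (fun i => algebraMap L (v.adicCompletion L) (c i)) p =
      algebraMap L (v.adicCompletion L) (spL c p) := by
  have h1 : (sp (K := K) v (fun i => algebraMap L (v.adicCompletion L) (c i))) =
      (algebraMap L (v.adicCompletion L)).comp (spL c) := by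
    apply MvPolynomial.ringHom_ext
    · intro r
      simp [sp, spL]
    · intro i
      simp [sp, spL]
  exact RingHom.congr_fun h1 p

/-- values of polynomials with integral coefficients near an integral point -/
theorem sp_near (p : MvPolynomial (Fin m) K)
    (hp : ∀ s, v.valuation L (algebraMap K L (p.coeff s)) ≤ 1) (c : Fin m → L)
    (hc : ∀ i, v.valuation L (c i) ≤ 1) (τ : Fin m → v.adicCompletion L) (γ : ℤᵐ⁰) (hγ : γ ≤ 1)
    (hτ : ∀ i, vv v (τ i - algebraMap L (v.adicCompletion L) (c i)) ≤ γ) :
    vv v (sp v τ p - algebraMap L (v.adicCompletion L) (spL c p)) ≤ γ ∧ vv v (sp v τ p) ≤ 1 := by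
  rw [← sp_coe]
  refine near_eval (vv v) _ ?_ _ _ ?_ ?_ γ hτ
  · intro s
    rw [MvPolynomial.coeff_map, RingHom.comp_apply, vv_algebraMap]
    exact hp s
  · intro i
    have h1 : τ i = (τ i - algebraMap L (v.adicCompletion L) (c i)) +
      algebraMap L (v.adicCompletion L) (c i) := by ring
    rw [h1]
    refine (Valuation.map_add _ _ _).trans (max_le ((hτ i).trans hγ) ?_)
    rw [vv_algebraMap]
    exact hc i
  · intro i
    rw [vv_algebraMap]
    exact hc i

theorem fine_near {k : Type u} [Field k] [CharZero k] [Algebra (MvPolynomial (Fin m) K) k]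
    [IsFractionRing (MvPolynomial (Fin m) K) k] (h2 : (2 : 𝓞 L) ∉ v.asIdeal)
    (G : (MvPolynomial (Fin m) K)[X])
    (hGint : ∀ j s, v.valuation L (algebraMap K L ((G.coeff j).coeff s)) ≤ 1)
    (c : Fin m → L) (hc : ∀ i, v.valuation L (c i) ≤ 1) (N : 𝓞 L) (hN : N ∉ v.asIdeal)
    (g : (𝓞 L)[X]) (hg : g.map (algebraMap (𝓞 L) L) = C (algebraMap (𝓞 L) L N) * G.map (spL c))
    (hdeg : g.natDegree = G.natDegree) (hlc : g.leadingCoeff ∉ v.asIdeal)
    (hs : (g.map (Ideal.Quotient.mk v.asIdeal)).Separable)
    (hroot : ∀ r : 𝓞 L ⧸ v.asIdeal, (g.map (Ideal.Quotient.mk v.asIdeal)).eval r ≠ 0)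
    (hev : Even G.natDegree) (h4 : 4 ≤ G.natDegree) (τ : Fin m → v.adicCompletion L)
    (hτ : AlgebraicIndependent L τ)
    (hτc : ∀ i, vv v (τ i - algebraMap L (v.adicCompletion L) (c i)) ≤ exp (-1))
    (a : MvPolynomial (Fin m) K) (n : ℤ) (hn : Odd n) (ha : vv v (sp v τ a) = exp n) :
    Fine.{u, v, w} (algebraMap (MvPolynomial (Fin m) K) k a)
      (G.map (algebraMap (MvPolynomial (Fin m) K) k)) := by
  classical
  have hfinres := finite_residue v
  have hmax : v.asIdeal.IsMaximal := v.isMaximal
  let _ := Ideal.Quotient.field v.asIdeal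
  obtain ⟨θ, hθ, hθr⟩ := exists_residue_map v
  have hθinj : Function.Injective θ := θ.injective
  have hinj := sp_injective (K := K) v τ hτ
  let ψ : k →+* v.adicCompletion L := IsFractionRing.lift hinj
  have hψ : ∀ p, ψ (algebraMap (MvPolynomial (Fin m) K) k p) = sp v τ p := fun p =>
    IsFractionRing.lift_algebraMap hinj p
  have hγ1 : (exp (-1) : ℤᵐ⁰) ≤ 1 := by
    rw [← exp_zero, exp_le_exp]
    omega
  have hγ2 : (exp (-1) : ℤᵐ⁰) < 1 := by
    rw [← exp_zero, exp_lt_exp]
    omega
  have hnear : ∀ j, vv v (sp v τ (G.coeff j) -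
      algebraMap L (v.adicCompletion L) (spL c (G.coeff j))) ≤ exp (-1) ∧
      vv v (sp v τ (G.coeff j)) ≤ 1 := fun j =>
    sp_near v (G.coeff j) (hGint j) c hc τ _ hγ1 hτc
  have hmapψ : (G.map (algebraMap (MvPolynomial (Fin m) K) k)).map ψ = G.map (sp v τ) := by
    ext j
    rw [coeff_map, coeff_map, coeff_map, hψ]
  obtain ⟨gB, hgB⟩ : ∃ gB : (vv v).valuationSubring[X],
      gB.map (algebraMap (vv v).valuationSubring (v.adicCompletion L)) = G.map (sp v τ) := by
    have h1 : G.map (sp v τ) ∈
        Polynomial.lifts (algebraMap (vv v).valuationSubring (v.adicCompletion L)) := by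
      rw [Polynomial.lifts_iff_coeff_lifts]
      intro j
      exact ⟨⟨(G.map (sp v τ)).coeff j, by
        rw [coeff_map]
        exact (hnear j).2⟩, rfl⟩
    obtain ⟨f, hf⟩ := (Polynomial.mem_lifts _).1 h1
    exact ⟨f, hf⟩
  have hcoeff : ∀ j, ((gB.coeff j : (vv v).valuationSubring) : v.adicCompletion L) =
      sp v τ (G.coeff j) := by
    intro j
    have := congrArg (fun q => q.coeff j) hgB
    simp only [coeff_map] at this
    exact this
  have hNint : ∀ r : 𝓞 L, vv v (algebraMap L (v.adicCompletion L) (algebraMap (𝓞 L) L r)) ≤ 1 := by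
    intro r
    rw [vv_algebraMap]
    exact v.valuation_le_one r
  let NB : (vv v).valuationSubring :=
    ⟨algebraMap L (v.adicCompletion L) (algebraMap (𝓞 L) L N), hNint N⟩
  have hNBres : IsLocalRing.residue _ NB = θ (Ideal.Quotient.mk v.asIdeal N) := by
    apply hθr
    change vv v (algebraMap L (v.adicCompletion L) (algebraMap (𝓞 L) L N) -
      algebraMap L (v.adicCompletion L) (algebraMap (𝓞 L) L N)) < 1
    rw [sub_self, map_zero]
    exact zero_lt_one
  have hNθ : θ (Ideal.Quotient.mk v.asIdeal N) ≠ 0 := by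
    rw [Ne, map_eq_zero_iff _ hθinj, Ideal.Quotient.eq_zero_iff_mem]
    exact hN
  have hres : ∀ j, IsLocalRing.residue _ (gB.coeff j) * θ (Ideal.Quotient.mk v.asIdeal N) =
      θ (Ideal.Quotient.mk v.asIdeal (g.coeff j)) := by
    intro j
    rw [← hNBres, ← map_mul]
    apply hθr
    have h1 : algebraMap (𝓞 L) L (g.coeff j) = algebraMap (𝓞 L) L N * spL c (G.coeff j) := by
      have := congrArg (fun q => q.coeff j) hg
      simpa only [coeff_map, coeff_C_mul] using this
    have h2 : ((gB.coeff j * NB : (vv v).valuationSubring) : v.adicCompletion L) -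
        algebraMap L (v.adicCompletion L) (algebraMap (𝓞 L) L (g.coeff j)) =
        algebraMap L (v.adicCompletion L) (algebraMap (𝓞 L) L N) * (sp v τ (G.coeff j) -
          algebraMap L (v.adicCompletion L) (spL c (G.coeff j))) := by
      rw [h1, map_mul]
      change ((gB.coeff j : (vv v).valuationSubring) : v.adicCompletion L) *
        algebraMap L (v.adicCompletion L) (algebraMap (𝓞 L) L N) - _ = _
      rw [hcoeff]
      ring
    rw [h2, map_mul]
    exact mul_lt_of_le_one_of_lt (hNint N) ((hnear j).1.trans_lt hγ2)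
  have hpoly : gB.map (IsLocalRing.residue _) * C (θ (Ideal.Quotient.mk v.asIdeal N)) =
      (g.map (Ideal.Quotient.mk v.asIdeal)).map θ := by
    ext j
    rw [coeff_mul_C, coeff_map, coeff_map, coeff_map]
    exact hres j
  have hinjk := IsFractionRing.injective (MvPolynomial (Fin m) K) k
  have hdegk : (G.map (algebraMap (MvPolynomial (Fin m) K) k)).natDegree = G.natDegree :=
    natDegree_map_eq_of_injective hinjk G
  have hdegB : gB.natDegree = G.natDegree := by
    rw [← natDegree_map_eq_of_injective (f := algebraMap (vv v).valuationSubring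
      (v.adicCompletion L)) Subtype.val_injective gB, hgB, natDegree_map_eq_of_injective hinj G]
  refine fine_of_val (vv v) ψ ?_ (G.map (algebraMap (MvPolynomial (Fin m) K) k)) gB ?_ ?_ ?_
    (by rwa [hdegk]) (by rwa [hdegk]) ?_ _ n hn ?_
  · have h3 : (2 : v.adicCompletion L) =
        algebraMap L (v.adicCompletion L) (algebraMap (𝓞 L) L 2) := by
      rw [map_ofNat, map_ofNat]
    rw [h3, vv_algebraMap]
    exact (HeightOneSpectrum.valuation_eq_one_iff_notMem v).2 h2
  · rw [hgB, hmapψ]
  · have h4 : gB.leadingCoeff ∉ IsLocalRing.maximalIdeal (vv v).valuationSubring := by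
      intro h5
      have h6 := hres gB.natDegree
      have h7 : IsLocalRing.residue _ (gB.coeff gB.natDegree) = 0 :=
        (IsLocalRing.residue_eq_zero_iff _).2 h5
      rw [h7, zero_mul, hdegB, ← hdeg] at h6
      have h8 := (map_eq_zero_iff _ hθinj).1 h6.symm
      rw [Ideal.Quotient.eq_zero_iff_mem] at h8
      exact hlc h8
    by_contra h5
    exact h4 ((IsLocalRing.mem_maximalIdeal _).2 h5)
  · have h5 : ((g.map (Ideal.Quotient.mk v.asIdeal)).map θ).Separable := hs.map
    rw [← hpoly] at h5
    exact h5.of_mul_left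
  · intro b hb
    obtain ⟨r, hr⟩ := exists_int_close v b
    have h5 := hθr r b hr
    have h6 : IsLocalRing.residue (vv v).valuationSubring (gB.eval b) = 0 :=
      (IsLocalRing.residue_eq_zero_iff _).2 hb
    have h7 : ((g.map (Ideal.Quotient.mk v.asIdeal)).map θ).eval
        (θ (Ideal.Quotient.mk v.asIdeal r)) = 0 := by
      rw [← hpoly, eval_mul, ← h5, eval_map, eval₂_at_apply, h6, zero_mul]
    rw [eval_map, eval₂_at_apply] at h7
    exact hroot _ ((map_eq_zero_iff _ hθinj).1 h7)
  · rw [hψ]
    exact ha

end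

end Pool.Agent.W858.SF
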